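import Pool.Agent.P.MP_ed12bb_co.G.Affine

/-!
For every degree d, a finite set of points of the real projective plane that is not contained in
a curve of degree d has a curve of degree d through exactly (d+1)(d+2)/2 - 1 of its points.
-/

open Pool.Agent.P.MP_ed12bb_co.G

theorem Pool.Agent.Results.MP_ed12bb_co.AllDegrees.result (d : ℕ) (_hd : 1 ≤ d)
    (P : Finset (Projectivization ℝ (Fin 3 → ℝ)))
    (hP : ¬∃ F : MvPolynomial (Fin 3) ℝ, F ≠ 0 ∧ F.IsHomogeneous d ∧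
      ∀ p ∈ P, MvPolynomial.eval p.rep F = 0) :
    ∃ F : MvPolynomial (Fin 3) ℝ, F ≠ 0 ∧ F.IsHomogeneous d ∧
      {p | p ∈ P ∧ MvPolynomial.eval p.rep F = 0}.ncard = (d + 1) * (d + 2) / 2 - 1 := by
  classical
  obtain ⟨f, hf⟩ := Module.exists_dual_forall_apply_ne_zero (K := ℝ) (ι := Option P)
    (fun o => o.elim (Pi.single 0 1 : Fin 3 → ℝ) fun p => p.1.rep) fun o => by
      cases o with
      | none => simp
      | some p => exact p.1.rep_nonzero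
  let c : Fin 3 → ℝ := fun i => f (Pi.single i 1)
  have hc : ∀ p : Fin 3 → ℝ, c ⬝ᵥ p = f p := fun p => by
    rw [LinearMap.pi_apply_eq_sum_univ f p, dotProduct]
    refine Finset.sum_congr rfl fun i _ => ?_
    rw [smul_eq_mul, mul_comm]
    refine congrArg (fun w => p i * f w) (funext fun j => ?_)
    simp [Pi.single_apply, eq_comm]
  have hc0 : c 0 ≠ 0 := hf none
  have hcp : ∀ p ∈ P, c ⬝ᵥ p.rep ≠ 0 := fun p hp => (hc p.rep).symm ▸ hf (some ⟨p, hp⟩)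
  let q : Projectivization ℝ (Fin 3 → ℝ) → Pt :=
    fun p => ![p.rep 1 / (c ⬝ᵥ p.rep), p.rep 2 / (c ⬝ᵥ p.rep)]
  have hinj : Set.InjOn q P := by
    intro p hp p' hp' h
    have a := hcp p hp
    have a' := hcp p' hp'
    have e1 : p.rep 1 / (c ⬝ᵥ p.rep) = p'.rep 1 / (c ⬝ᵥ p'.rep) := congrFun h 0
    have e2 : p.rep 2 / (c ⬝ᵥ p.rep) = p'.rep 2 / (c ⬝ᵥ p'.rep) := congrFun h 1
    rw [div_eq_div_iff a a'] at e1 e2
    have b : c ⬝ᵥ p.rep = c 0 * p.rep 0 + c 1 * p.rep 1 + c 2 * p.rep 2 := by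
      simp [dotProduct, Fin.sum_univ_three]
    have b' : c ⬝ᵥ p'.rep = c 0 * p'.rep 0 + c 1 * p'.rep 1 + c 2 * p'.rep 2 := by
      simp [dotProduct, Fin.sum_univ_three]
    have e0 : p.rep 0 * (c ⬝ᵥ p'.rep) = p'.rep 0 * (c ⬝ᵥ p.rep) := by
      refine mul_left_cancel₀ hc0 ?_
      linear_combination (c ⬝ᵥ p.rep) * b' - (c ⬝ᵥ p'.rep) * b - c 1 * e1 - c 2 * e2
    rw [← p.mk_rep, ← p'.mk_rep, Projectivization.mk_eq_mk_iff']
    refine ⟨c ⬝ᵥ p.rep / (c ⬝ᵥ p'.rep), ?_⟩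
    ext i
    rw [Pi.smul_apply, smul_eq_mul, div_mul_eq_mul_div, div_eq_iff a', mul_comm]
    fin_cases i
    · exact e0.symm
    · exact e1.symm
    · exact e2.symm
  obtain ⟨F, hF, F0, hcount⟩ := affine d (P.image q) fun F hF hz => by
    by_contra F0
    obtain ⟨G, g1, g2⟩ := exists_form d c hF
    refine hP ⟨G, form_ne_zero hc0 F0 g2, g1, fun p hp => ?_⟩
    rw [g2 _ (hcp p hp), hz _ (Finset.mem_image_of_mem q hp), mul_zero]
  obtain ⟨G, g1, g2⟩ := exists_form d c hF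
  refine ⟨G, form_ne_zero hc0 F0 g2, g1, ?_⟩
  have key : ∀ p ∈ P, MvPolynomial.eval p.rep G = 0 ↔ MvPolynomial.eval (q p) F = 0 :=
    fun p hp => by rw [g2 _ (hcp p hp), mul_eq_zero, or_iff_right (pow_ne_zero _ (hcp p hp))]
  have e : {x | x ∈ P.image q ∧ MvPolynomial.eval x F = 0} =
      q '' {p | p ∈ P ∧ MvPolynomial.eval p.rep G = 0} := by
    ext x
    simp only [Finset.mem_image, Set.mem_image, Set.mem_ofPred_eq]
    constructor
    · rintro ⟨⟨p, hp, rfl⟩, hz⟩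
      exact ⟨p, ⟨hp, (key p hp).2 hz⟩, rfl⟩
    · rintro ⟨p, ⟨hp, hz⟩, rfl⟩
      exact ⟨⟨p, hp, rfl⟩, (key p hp).1 hz⟩
  rw [e, Set.InjOn.ncard_image (hinj.mono fun p hp => hp.1)] at hcount
  omega
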